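import Pool.Agent.Q152.CC.Fin

/-!
# Short sums of almost all primitive cubic Dirichlet characters
-/

set_option autoImplicit false

namespace Pool.Agent.Results.MP_081200_nt.AlmostAllCubicCharacters

open Finset

/-- the primitive Dirichlet characters of order `3` and of conductor at most `P` -/
def Cubic (P : ℕ) : Set (Σ m : ℕ, DirichletCharacter ℂ m) :=
  {χ | 1 ≤ χ.1 ∧ χ.1 ≤ P ∧ χ.2.IsPrimitive ∧ χ.2 ^ 3 = 1 ∧ χ.2 ≠ 1}

/-- the sum of `χ(a) ψ(a)` over `M < a ≤ M + N` -/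
noncomputable def S {m q : ℕ} (χ : DirichletCharacter ℂ m) (ψ : DirichletCharacter ℂ q)
    (M N : ℕ) : ℂ :=
  ∑ a ∈ Ioc M (M + N), χ (a : ZMod m) * ψ (a : ZMod q)

/-- square root cancellation, up to the factor `X^ε`, for all intervals in `[0, X]` and all
characters `ψ` modulo `q ≤ X` -/
def SquareRoot (ε X : ℝ) {m : ℕ} (χ : DirichletCharacter ℂ m) : Prop :=
  ∀ q : ℕ, 1 ≤ q → (q : ℝ) ≤ X → ∀ (ψ : DirichletCharacter ℂ q) (M N : ℕ), ((M + N : ℕ) : ℝ) ≤ X →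
    ‖S χ ψ M N‖ ≤ X ^ ε * √N

/-- saving `X^δ` for all intervals of length at most `X` in `[0, X^θ]` and all characters `ψ`
modulo `q ≤ X^τ` -/
def Saving (C δ θ τ X : ℝ) {m : ℕ} (χ : DirichletCharacter ℂ m) : Prop :=
  ∀ q : ℕ, 1 ≤ q → (q : ℝ) ≤ X ^ τ → ∀ (ψ : DirichletCharacter ℂ q) (M N : ℕ), (N : ℝ) ≤ X →
    ((M + N : ℕ) : ℝ) ≤ X ^ θ → ‖S χ ψ M N‖ ≤ C * X ^ (1 - δ)

open Pool.Agent.Q152.CC

theorem sub (P : ℕ) : Cubic P ⊆ family P := fun _ h => ⟨h.1, h.2.1, h.2.2.1, h.2.2.2.1⟩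

theorem fin (P : ℕ) : (family P).Finite := (cnt' P (fun _ => True) (fun _ _ _ => Iff.rfl)).1

theorem le_of {P : ℕ} {A : Set (Σ m : ℕ, DirichletCharacter ℂ m)}
    {B : Set (Σ m : ℕ, DirichletCharacter ℂ m)} (hB : B ⊆ family P) (h : A ⊆ B) {x : ℝ}
    (hx : ((B.ncard : ℕ) : ℝ) ≤ x) : ((A.ncard : ℕ) : ℝ) ≤ x :=
  (Nat.cast_le.2 (Set.ncard_le_ncard h ((fin P).subset hB))).trans hx

theorem upper (P : ℕ) (hP : 1 ≤ P) : (((family P).ncard : ℕ) : ℝ) ≤ 112 * P := by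
  classical
  have h := (cnt' P (fun _ => True) (fun _ _ _ => Iff.rfl)).2
  have e : {χ ∈ family P | True} = family P := by
    ext χ; simp
  rw [e] at h
  refine h.trans ?_
  have h1 : ((((range (2 * (Nat.sqrt P + 1))) ×ˢ (range (2 * (Nat.sqrt P + 1)))).filter
      fun t : ℕ × ℕ => ∃ (d : ℕ) (_ψ : DirichletCharacter ℂ d), (d = 1 ∨ d = 9) ∧ True).card : ℝ) ≤
      ((2 * (Nat.sqrt P + 1)) * (2 * (Nat.sqrt P + 1)) : ℕ) := by
    refine Nat.cast_le.2 ((card_filter_le _ _).trans ?_)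
    rw [card_product, card_range]
  have h2 : (Nat.sqrt P + 1) * (Nat.sqrt P + 1) ≤ 4 * P := by
    have a := Nat.sqrt_le' P
    have b : 1 ≤ Nat.sqrt P := Nat.le_sqrt'.2 (by simpa using hP)
    nlinarith
  have h3 : ((2 * (Nat.sqrt P + 1)) * (2 * (Nat.sqrt P + 1)) : ℕ) ≤ 16 * P := by nlinarith
  have h4 : (((2 * (Nat.sqrt P + 1)) * (2 * (Nat.sqrt P + 1)) : ℕ) : ℝ) ≤ 16 * P := by
    exact_mod_cast h3
  calc _ ≤ 7 * (((2 * (Nat.sqrt P + 1)) * (2 * (Nat.sqrt P + 1)) : ℕ) : ℝ) := by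
        exact mul_le_mul_of_nonneg_left h1 (by norm_num)
    _ ≤ 7 * (16 * P) := mul_le_mul_of_nonneg_left h4 (by norm_num)
    _ = 112 * P := by ring

/-- the members of `family P` that are not of order three: only the character modulo `1` -/
theorem triv_sub (P : ℕ) : family P \ Cubic P ⊆ {⟨1, 1⟩} := by
  rintro ⟨m, χ⟩ ⟨h, h'⟩
  have h0 : χ = 1 := by
    by_contra hc
    exact h' ⟨h.1, h.2.1, h.2.2.1, h.2.2.2, hc⟩
  subst h0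
  have hm : m = 1 := by
    have hm0 : NeZero m := ⟨Nat.one_le_iff_ne_zero.1 h.1⟩
    have h1 : DirichletCharacter.conductor (1 : DirichletCharacter ℂ m) = m := h.2.2.1
    rw [DirichletCharacter.conductor_one] at h1
    exact h1.symm
  subst hm
  rfl

theorem lower : ∃ c : ℝ, 0 < c ∧ ∃ P₀ : ℕ, ∀ P : ℕ, P₀ ≤ P → c * P ≤ (((Cubic P).ncard : ℕ) : ℝ) := by
  obtain ⟨c, hc, P₀, h⟩ := fam'
  refine ⟨c / 2, by positivity, max P₀ (Nat.ceil (2 / c)), fun P hP => ?_⟩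
  have h1 := h P (le_trans (le_max_left _ _) hP)
  have h2 : (family P).ncard ≤ (Cubic P).ncard + 1 := by
    have e : family P ⊆ Cubic P ∪ {⟨1, 1⟩} := by
      intro χ hχ
      by_cases hc : χ ∈ Cubic P
      · exact Or.inl hc
      · exact Or.inr (triv_sub P ⟨hχ, hc⟩)
    have hf : (Cubic P ∪ {⟨1, 1⟩}).Finite := ((fin P).subset (sub P)).union (Set.finite_singleton _)
    refine (Set.ncard_le_ncard e hf).trans ((Set.ncard_union_le _ _).trans ?_)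
    rw [Set.ncard_singleton]
  have h3 : (2 / c : ℝ) ≤ P := (Nat.le_ceil _).trans (by exact_mod_cast le_trans (le_max_right _ _) hP)
  have h4 : (2 : ℝ) ≤ c * P := by
    rw [div_le_iff₀ hc] at h3
    linarith
  have h5 : (((family P).ncard : ℕ) : ℝ) ≤ ((Cubic P).ncard : ℕ) + 1 := by exact_mod_cast h2
  linarith

theorem result :
    (∃ c : ℝ, 0 < c ∧ ∃ P₀ : ℕ, ∀ P : ℕ, P₀ ≤ P → (Cubic P).Finite ∧
      c * P ≤ (((Cubic P).ncard : ℕ) : ℝ) ∧ (((Cubic P).ncard : ℕ) : ℝ) ≤ 112 * P) ∧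
    (∀ (B : ℕ) (ε : ℝ), 0 < ε → ∃ (A : ℕ) (Y₀ : ℝ), ∀ (P : ℕ) (Y : ℝ), Y₀ ≤ Y →
      (({χ ∈ Cubic P | ¬ ∀ X : ℝ, Y ≤ X → X ^ A ≤ P → SquareRoot ε X χ.2}.ncard : ℕ) : ℝ) ≤
        P / Y ^ B) ∧
    (∀ (k : ℕ) (θ τ δ c : ℝ), 1 ≤ k → 1 ≤ θ → 0 ≤ τ → 0 < δ → 0 < c →
      c + θ + 2 * τ + 2 * (k + 1) * δ < k + 1 → ∃ C : ℝ, 0 < C ∧
      ∀ (P : ℕ) (X : ℝ), 1 ≤ X → X ^ ((2 * θ + 1) * k) ≤ P →
      (({χ ∈ Cubic P | ¬ Saving C δ θ τ X χ.2}.ncard : ℕ) : ℝ) ≤ C * P / X ^ c) := by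
  refine ⟨?_, ?_, ?_⟩
  · obtain ⟨c, hc, P₀, h⟩ := lower
    refine ⟨c, hc, max P₀ 1, fun P hP => ⟨(fin P).subset (sub P), h P (le_trans (le_max_left _ _) hP),
      le_of (P := P) subset_rfl (sub P) (upper P (le_trans (le_max_right _ _) hP))⟩⟩
  · intro B ε hε
    obtain ⟨A, Y₀, h⟩ := fn1' B ε hε
    refine ⟨A, Y₀, fun P Y hY => le_of (P := P) (fun χ hχ => hχ.1) ?_ (h P Y hY)⟩
    exact fun χ hχ => ⟨sub P hχ.1, hχ.2⟩
  · intro k θ τ δ c hk hθ hτ hδ hc hh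
    obtain ⟨C, hC, h⟩ := fn3' k θ τ δ c hk hθ hτ hδ hc hh
    refine ⟨C, hC, fun P X hX hP => le_of (P := P) (fun χ hχ => hχ.1) ?_ (h P X hX hP)⟩
    intro χ hχ
    refine ⟨sub P hχ.1, ?_⟩
    have h2 := hχ.2
    unfold Saving S at h2
    push Not at h2
    obtain ⟨q, hq, hqX, ψ, M, N, hN, hMN, hb⟩ := h2
    exact ⟨q, ψ, M, N, hq, hqX, hN, hMN, hb⟩

end Pool.Agent.Results.MP_081200_nt.AlmostAllCubicCharacters
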