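import Pool.Agent.Q96.SP.CU

set_option autoImplicit false

/-!
# Short sums of characters twisted by a random cubic function

The values `χ(a)` of a (cubic) character are replaced by `f(a) χ(a)`, where `f` is a completely
multiplicative function whose values are cube roots of unity. For almost every `f` the statement
`C_n` holds for all `n`, with the saving `δ = 1/2`, for all characters modulo all `q ≤ Q` and all
intervals `(M, M+N]` with `M ≤ Q^A`.

By helper255 and others; definitions and proof in `Pool.Agent.Q96.SP.CU` and the files it imports.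
-/

namespace Pool.Agent.Results.MP_081200_nt.AlmostAllCubicTwists

open MeasureTheory Finset Pool.Agent.Q96.SP.CU

/-- **Short sums of characters for almost every cubic twist.** -/
theorem result :
    -- (1) almost every cubic function and all its finite modifications
    (∀ᵐ ω ∂uniform, ∀ ω' : ℕ → ZMod 3, {p | ω' p ≠ ω p}.Finite →
      SquareRoot (cubic ω') ∧ ∀ n A : ℕ, 1 ≤ n → TwistedC (cubic ω') n (1 / 2) A) ∧
    -- (2) the values at the small primes can be those of the function `1`
    (∀ y : ℕ, ∃ g : ℕ → ℂ, (∀ n, g n ^ 3 = 1) ∧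
      (∀ m n, 1 ≤ m → 1 ≤ n → g (m * n) = g m * g n) ∧ (∀ p : ℕ, p.Prime → p ≤ y → g p = 1) ∧
      SquareRoot g ∧ ∀ n A : ℕ, 1 ≤ n → TwistedC g n (1 / 2) A) :=
  ⟨all.1, all.2.1⟩

end Pool.Agent.Results.MP_081200_nt.AlmostAllCubicTwists
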