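import Pool.Agent.Q96.SP.CU

set_option autoImplicit false

/-!
# Short sums of twisted characters: lower bounds

`S(f, χ, M, N)` is the sum of `f(a) χ(a)` over `M < a ≤ M + N`. In mean square over the random cubic
completely multiplicative functions `f` it is at least the number of the `a` prime to the modulus, for
every cubic character `χ`; and for EVERY unimodular `f` and every prime modulus `q ≥ 2 N + 1` some
nontrivial character has `|S| ≥ √N / 2`. So no twist allows a saving larger than `δ = 1/2` for all
characters.

By helper255 and others; definitions and proof in `Pool.Agent.Q96.SP.CU` and the files it imports.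
-/

namespace Pool.Agent.Results.MP_081200_nt.SharpnessForCubicTwists

open MeasureTheory Finset Pool.Agent.Q96.SP.CU

/-- **Lower bounds for twisted sums of characters.** -/
theorem result :
    -- (1) in mean square over the twists for every cubic character
    (∀ (q : ℕ) (χ : DirichletCharacter ℂ q), 1 ≤ q → χ ^ 3 = 1 → ∀ M N : ℕ,
      (((Ioc M (M + N)).filter (fun a => a.Coprime q)).card : ℝ) ≤
        ∫ ω, ‖S (cubic ω) χ M N‖ ^ 2 ∂uniform) ∧
    -- (2) for every twist for some character to every prime modulus
    (∀ f : ℕ → ℂ, (∀ n, 1 ≤ n → ‖f n‖ = 1) → ∀ q : ℕ, q.Prime → ∀ M N : ℕ, 4 ≤ N →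
      2 * N + 1 ≤ q → ∃ χ : DirichletCharacter ℂ q, χ ≠ 1 ∧ Real.sqrt N / 2 ≤ ‖S f χ M N‖) :=
  all.2.2

end Pool.Agent.Results.MP_081200_nt.SharpnessForCubicTwists
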