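import Pool.Agent.Q84.NX.Shrt2
import Pool.Agent.Q84.NX.Win
import Pool.Agent.Q84.NX.Str

/-!
# Short character sums: all the moduli near small multiples of the primes of strings

Let `η > 0`. For all `κ > 0` and `m` there is `c' > 0` and for every `Z` a number `W` with the following property. For every large `X` there is
a set `S` of at most `(log X) ^ (49 / 50)` primes, all larger than `Z`, such that for EVERY function `f` with values `1` and `-1` on the
primes at least `X ^ (1 - κ)` integers `n`, `X < n ≤ 3X`, satisfy: the interval `[n, n + W]` contains at least `m` primes, and for every prime `p`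
in it

* the Legendre symbol `(p / q)` is `f q` for all odd primes `q ≤ c' log X` outside `S` (with `Z ≥ 3` and `f 3 = 1` all these `p` are `1` modulo `3`,
  so there are cubic characters modulo `p`);
* for ALL integers `q` with `|q - k p| ≤ p ^ (1/80)` for some integer `k`, `1 ≤ k ≤ p ^ (1/80)` (for instance `q = p`), all primitive characters
  `χ` modulo `q` (cubic or not), all `N` with `q ^ η ≤ N ≤ q` and all integers `M` with `|M| ≤ N ^ (6/5)`:
  `|∑_{M < a ≤ M + N} χ(a)| ≤ N ^ (99/100)`.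

Method: by the large sieve for a power of the sums this is true for all but `K ^ (9/10)` of the moduli `q ∈ (K, 2K]` (`Q84/NX/Shrt2`); Maynard-Tao
outside such a set.
-/

set_option autoImplicit false

open scoped Classical

namespace Pool.Agent.Results.MP_081200_nt.StringsOfPrimes

open Finset Filter

/-- power saving for all primitive characters of all the moduli `q` near `k p`, `1 ≤ k ≤ p ^ (1/80)` -/
def Fine (η : ℝ) (p : ℕ) : Prop :=
  ∀ k q : ℕ, 1 ≤ k → (k : ℝ) ≤ (p : ℝ) ^ (1 / 80 : ℝ) → |(q : ℝ) - k * p| ≤ (p : ℝ) ^ (1 / 80 : ℝ) →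
    ∀ χ : DirichletCharacter ℂ q, χ.IsPrimitive → ∀ (N : ℕ) (M : ℤ), (q : ℝ) ^ η ≤ N → N ≤ q →
      |(M : ℝ)| ≤ (N : ℝ) ^ (6 / 5 : ℝ) → ‖∑ a ∈ Ioc M (M + N), χ (a : ZMod q)‖ ≤ (N : ℝ) ^ (99 / 100 : ℝ)

/-- sums over positive integers -/
theorem sum_nat {q : ℕ} (χ : DirichletCharacter ℂ q) (u v : ℕ) :
    ∑ a ∈ Ioc (u : ℤ) (v : ℤ), χ (a : ZMod q) = ∑ a ∈ Ioc u v, χ (a : ZMod q) := by
  symm
  refine Finset.sum_bij (fun a _ => (a : ℤ)) ?_ ?_ ?_ ?_
  · intro a ha
    rw [mem_Ioc] at ha ⊢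
    exact_mod_cast ha
  · intro a _ b _ h
    exact_mod_cast h
  · intro b hb
    rw [mem_Ioc] at hb
    refine ⟨b.toNat, ?_, ?_⟩
    · rw [mem_Ioc]
      omega
    · omega
  · intro a _
    simp

/-- reflection -/
theorem norm_neg_sum {q : ℕ} (χ : DirichletCharacter ℂ q) (A B : ℤ) :
    ‖∑ a ∈ Ioc A B, χ (a : ZMod q)‖ ≤ ‖∑ a ∈ Ioc (-B - 1) (-A - 1), χ (a : ZMod q)‖ := by
  have h : ∑ a ∈ Ioc A B, χ (a : ZMod q) = χ (-1) * ∑ a ∈ Ioc (-B - 1) (-A - 1), χ (a : ZMod q) := by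
    rw [mul_sum]
    refine Finset.sum_bij (fun a _ => -a) ?_ ?_ ?_ ?_
    · intro a ha
      rw [mem_Ioc] at ha ⊢
      omega
    · intro a _ b _ h
      exact neg_injective h
    · intro b hb
      rw [mem_Ioc] at hb
      refine ⟨-b, ?_, neg_neg b⟩
      rw [mem_Ioc]
      omega
    · intro a _
      rw [← map_mul]
      congr 1
      push_cast
      ring
  rw [h, norm_mul]
  refine mul_le_of_le_one_left (norm_nonneg _) (DirichletCharacter.norm_le_one χ _)

/-- from positive to arbitrary positions -/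
theorem int_of_nat {η : ℝ} {q : ℕ} (hq : 2 ≤ q) (h : Pool.Agent.Q84.NX.Shrt η q) (χ : DirichletCharacter ℂ q)
    (hχ : χ.IsPrimitive) (N : ℕ) (M : ℤ) (hN1 : (q : ℝ) ^ η ≤ N) (hN2 : N ≤ q) (hM : |(M : ℝ)| ≤ (N : ℝ) ^ (6 / 5 : ℝ)) :
    ‖∑ a ∈ Ioc M (M + N), χ (a : ZMod q)‖ ≤ (N : ℝ) ^ (99 / 100 : ℝ) := by
  have hN0 : (0 : ℝ) ≤ (N : ℝ) ^ (99 / 100 : ℝ) := by positivity
  have key : ∀ u v : ℕ, u ≤ v → v ≤ u + N → (u : ℝ) ≤ (N : ℝ) ^ (6 / 5 : ℝ) →
      ‖∑ a ∈ Ioc (u : ℤ) (v : ℤ), χ (a : ZMod q)‖ ≤ (N : ℝ) ^ (99 / 100 : ℝ) / 2 := by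
    intro u v huv hvN hu
    rw [sum_nat]
    exact h χ hχ N u v hN1 hN2 huv hvN hu
  have hM' := abs_le.1 hM
  rcases le_or_gt 0 M with h0 | h0
  · have h1 := key M.toNat (M.toNat + N) (by omega) le_rfl (by
      have e : ((M.toNat : ℕ) : ℝ) = (M : ℝ) := by
        have : ((M.toNat : ℕ) : ℤ) = M := Int.toNat_of_nonneg h0
        exact_mod_cast this
      rw [e]
      exact hM'.2)
    have e1 : ((M.toNat : ℕ) : ℤ) = M := Int.toNat_of_nonneg h0
    push_cast at h1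
    rw [e1] at h1
    linarith
  · rcases lt_or_ge (M + N) 0 with h2 | h2
    · have h3 := norm_neg_sum χ M (M + N)
      have h4 := key (-(M + N) - 1).toNat ((-(M + N) - 1).toNat + N) (by omega) le_rfl (by
        have e : (((-(M + N) - 1).toNat : ℕ) : ℝ) = ((-(M + N) - 1 : ℤ) : ℝ) := by
          have : (((-(M + N) - 1).toNat : ℕ) : ℤ) = -(M + N) - 1 := Int.toNat_of_nonneg (by omega)
          exact_mod_cast this
        rw [e]
        push_cast
        have : (0 : ℝ) ≤ N := Nat.cast_nonneg N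
        linarith)
      have e1 : (((-(M + N) - 1).toNat : ℕ) : ℤ) = -(M + N) - 1 := Int.toNat_of_nonneg (by omega)
      push_cast at h4
      rw [e1, show -(M + (N : ℤ)) - 1 + (N : ℤ) = -M - 1 by ring] at h4
      linarith
    · -- zero is in the interval
      have e1 : Ioc M (M + N) = Ioc M (-1) ∪ ({0} ∪ Ioc 0 (M + N)) := by
        ext a
        simp only [mem_union, mem_Ioc, mem_singleton]
        omega
      have d1 : Disjoint (Ioc M (-1)) ({0} ∪ Ioc 0 (M + N)) := by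
        rw [Finset.disjoint_left]
        intro a ha hb
        simp only [mem_union, mem_Ioc, mem_singleton] at ha hb
        omega
      have d2 : Disjoint ({0} : Finset ℤ) (Ioc 0 (M + N)) := by
        rw [Finset.disjoint_left]
        intro a ha hb
        simp only [mem_Ioc, mem_singleton] at ha hb
        omega
      rw [e1, sum_union d1, sum_union d2, sum_singleton]
      have hχ0 : χ ((0 : ℤ) : ZMod q) = 0 := by
        rw [Int.cast_zero]
        apply MulChar.map_nonunit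
        rw [isUnit_zero_iff]
        intro h01
        have : Fact (1 < q) := ⟨by omega⟩
        exact zero_ne_one h01
      rw [hχ0, zero_add]
      have h3 := norm_neg_sum χ M (-1)
      rw [show -(-1 : ℤ) - 1 = 0 by norm_num] at h3
      have h4 := key 0 (-M - 1).toNat (Nat.zero_le _) (by omega) (by
        rw [Nat.cast_zero]
        positivity)
      have e2 : (((-M - 1).toNat : ℕ) : ℤ) = -M - 1 := Int.toNat_of_nonneg (by omega)
      rw [e2, Nat.cast_zero] at h4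
      have h5 := key 0 (M + N).toNat (Nat.zero_le _) (by omega) (by
        rw [Nat.cast_zero]
        positivity)
      have e3 : (((M + N).toNat : ℕ) : ℤ) = M + N := Int.toNat_of_nonneg h2
      rw [e3, Nat.cast_zero] at h5
      refine (norm_add_le _ _).trans ?_
      linarith

/-- **Theorem.** -/
theorem result (η : ℝ) (hη : 0 < η) :
    ∀ κ : ℝ, 0 < κ → ∀ m : ℕ, ∃ c' : ℝ, 0 < c' ∧
    ∀ Z : ℕ, ∃ W : ℕ, ∃ X₀ : ℝ, ∀ X : ℝ, X₀ ≤ X →
    ∃ S : Finset ℕ, (∀ q ∈ S, q.Prime ∧ Z < q) ∧ (S.card : ℝ) ≤ (Real.log X) ^ (49 / 50 : ℝ) ∧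
    ∀ f : ℕ → ℤ, (∀ q, f q = 1 ∨ f q = -1) →
      X ^ (1 - κ) ≤ (((Icc 1 ⌊3 * X⌋₊).filter fun n : ℕ => X < n ∧
        m ≤ ((Icc n (n + W)).filter Nat.Prime).card ∧
        ∀ p ∈ Icc n (n + W), p.Prime → Fine η p ∧
          ∀ q : ℕ, q.Prime → q ≠ 2 → (q : ℝ) ≤ c' * Real.log X → q ∉ S → jacobiSym p q = f q).card : ℝ) := by
  obtain ⟨η', hη'⟩ : ∃ η', η' = min η 1 := ⟨_, rfl⟩
  have hη'0 : 0 < η' := by rw [hη']; exact lt_min hη one_pos
  have hη'1 : η' ≤ 1 := by rw [hη']; exact min_le_right _ _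
  have hη'η : η' ≤ η := by rw [hη']; exact min_le_left _ _
  obtain ⟨K₀, hK₀⟩ := Pool.Agent.Q84.NX.shrt_few η' hη'0 hη'1
  obtain ⟨C, hC⟩ : ∃ C : ℝ, ∀ Y : ℕ, (((range (Y + 1)).filter fun q => ¬ Pool.Agent.Q84.NX.Shrt η' q).card : ℝ) ≤
      C * ((Y : ℝ) + 1) ^ (1 - 1 / 10 : ℝ) := by
    obtain ⟨C, hC⟩ := Pool.Agent.Q84.NX.dyadic' (fun q => ¬ Pool.Agent.Q84.NX.Shrt η' q) (1 / 10) (by norm_num) K₀
      (fun K hK => by
        have h := hK₀ K hK
        convert h)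
    exact ⟨C, fun Y => by
      have h := hC Y
      convert h⟩
  obtain ⟨R, hR⟩ : ∃ R : ℕ → Prop, R = fun q => 2 ≤ q ∧ ¬ Pool.Agent.Q84.NX.Shrt η' q := ⟨_, rfl⟩
  have hRc : ∀ Y : ℕ, (((range (Y + 1)).filter R).card : ℝ) ≤ C * ((Y : ℝ) + 1) ^ (1 - 1 / 10 : ℝ) := by
    intro Y
    refine le_trans ?_ (hC Y)
    rw [Nat.cast_le]
    refine card_le_card fun q hq => ?_
    rw [mem_filter, hR] at hq
    rw [mem_filter]
    exact ⟨hq.1, hq.2.2⟩
  have hbad := Pool.Agent.Q84.NX.win_bad R C (1 / 10) (by norm_num) (by norm_num) hRc (1 / 80) (by norm_num) (by norm_num)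
  have hG : ∀ᶠ X : ℝ in atTop, (((Icc 1 ⌊4 * X⌋₊).filter fun p : ℕ => p.Prime ∧ X < p ∧ ¬ Fine η p).card : ℝ) ≤
      X ^ (1 - 1 / 20 : ℝ) := by
    filter_upwards [hbad, eventually_ge_atTop (8 : ℝ)] with X hX hX8
    rw [show (1 - 1 / 20 : ℝ) = 1 - 1 / 10 / 2 by norm_num]
    refine le_trans ?_ hX
    rw [Nat.cast_le]
    refine card_le_card fun p hp => ?_
    rw [mem_filter] at hp ⊢
    refine ⟨hp.1, hp.2.1, hp.2.2.1, fun hw => hp.2.2.2 ?_⟩
    intro k q hk hkp hkq χ hχ N M hN1 hN2 hM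
    have hp8 : (8 : ℝ) ≤ p := hX8.trans hp.2.2.1.le
    have hpc : (p : ℝ) ^ (1 / 80 : ℝ) ≤ p / 2 := by
      have h1 : (p : ℝ) ^ (1 / 80 : ℝ) ≤ (p : ℝ) ^ (1 / 2 : ℝ) :=
        Real.rpow_le_rpow_of_exponent_le (by linarith) (by norm_num)
      rw [← Real.sqrt_eq_rpow] at h1
      have h2 : Real.sqrt p ≤ p / 2 := by
        rw [Real.sqrt_le_left (by linarith)]
        nlinarith
      linarith
    have hq2 : 2 ≤ q := by
      have h1 : (1 : ℝ) ≤ k := by exact_mod_cast hk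
      have h2 := (abs_le.1 hkq).1
      have h3 : (p : ℝ) ≤ k * p := by nlinarith
      have h4 : (2 : ℝ) ≤ q := by linarith
      exact_mod_cast h4
    have hq : Pool.Agent.Q84.NX.Shrt η' q := by
      by_contra hcon
      refine hw k q hk hkp hkq ?_
      rw [hR]
      exact ⟨hq2, hcon⟩
    have hqr : (1 : ℝ) ≤ q := by
      have : (2 : ℝ) ≤ q := by exact_mod_cast hq2
      linarith
    exact int_of_nat hq2 hq χ hχ N M ((Real.rpow_le_rpow_of_exponent_le hqr hη'η).trans hN1) hN2 hM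
  intro κ hκ m
  exact Pool.Agent.Q84.NX.strings_of (Fine η) (1 / 20) (by norm_num) hG κ hκ m

end Pool.Agent.Results.MP_081200_nt.StringsOfPrimes
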